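import Pool.Agent.Y123.GN.E8
import Pool.Agent.Y123.ST.Out

/-!
# The torsor form of the period conjecture for almost all fibres of families with big monodromy, over all number fields

Let `h_i`, `1 ≤ i ≤ k`, be families of G-functions over `ℚ` (with the conditions of Siegel and Galochkin, regular singular
with rational exponents at `0`) and let `P_i(x)` be square matrices whose entries are polynomials with arbitrary complex
coefficients in `log x` and in the functions `h_{i,l}(x)`: the period matrices (rows: Betti, columns: de Rham) of the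
cohomology of families `X_{i,x}` of smooth projective varieties over an open part of the line, near any rational point, which
may be a point of degeneration (with unipotent local monodromy). Let `Gal(P_i)` be the group of the matrices `g` such that
`P_i` and `g P_i` satisfy the same polynomial relations over `ℂ(x)`: if `P_i` is a fundamental matrix of the Gauss-Manin system this is its differential
Galois group, the Zariski closure of the monodromy group. Let `M_0` be any object over a number field, for example the motive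
of a fixed smooth projective variety `X_0`, with period matrix `C₀`, and let `c = C₀ ⊕ ⨁_i P_i(1 / t_i)` be the period matrix
of the sum of `M_0` and of the fibres at `x_i = 1 / t_i`.

For a number field `K ⊂ ℂ` a `K`-subtorsor is a subset `T` of `GL` which is defined by polynomials over `K`, of any degree,
and closed under `x y⁻¹ z`. The torsor of motivic isomorphisms of `H_dR` and `H_B` is one and contains `c`, and
Grothendieck's conjecture (its dimension is the transcendence degree of the periods) implies that it is contained in all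
others with `c ∈ T`, up to connected components, for all `K`. We show that this is the case, relative to `M_0`, for almost
all `t` if the monodromy groups are big.

**Theorem.** Let `D` be a natural number. For almost all tuples of integers `t` (all but `C N^(k-1) ∑_i (1 + N / (x_i + N)^c)`
of the tuples in the box `∏_i (x_i, x_i + N]`, where `c > 0` and `C` depend only on `D`, the `h_i`, `k`, the ranks and the
degrees of the `P_i` as polynomials) the following holds for **all number fields** `K` of degree at most `D` **at once** and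
all `K`-subtorsors `T` with `c ∈ T`.

1. `T` is stable under `1 × ∏_i known_i`, where `known_i` is the commutator group of the group generated by all unipotent
   one-parameter groups in `Gal(P_i)`. This is the connected component of `Gal(P_i)` if this component is semisimple, as is
   the case for families of smooth projective varieties by a theorem of Deligne.
2. Let `Gal(P_i)` contain, for all `i`, the group `special(B_i)` of the matrices of determinant `1` which respect a form
   `B_i`, where `B_i` is alternating and nondegenerate, or symmetric and nondegenerate of rank `≠ 2`, or zero: the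
   monodromy group is Zariski dense in `Sp`, `SO`, `O`, `SL` or bigger. By a theorem of Deligne this holds for the vanishing
   cohomology of the fibres of all Lefschetz pencils with infinite monodromy group (the other part of the cohomology is
   constant and belongs to `M_0`), and it holds for many families of curves and K3 surfaces and for eigenspaces of cyclic
   coverings. Then `special(B_i)` is contained in `known_i` (`Pool.Agent.Y123.GN.cl_perf`), and `T` is, in the torsor of all
   isomorphisms `x_0 ⊕ ⨁ X_i` which respect polarisations (`X_i Q_i X_i^t = μ_i B_i`), the full inverse image of its image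
   under `(x_0, det X_1, …, det X_k)`. (In the symplectic case the determinant is superfluous.) So the dimension of the smallest `K`-subtorsor for `M_0 ⊕ ⨁ M_i` is the dimension for
   `M_0 ⊕ ⨁ det M_i` plus `∑_i dim special(B_i)`.
3. (The absolute case.) Let moreover `M_0 = ℚ(-1)`, `C₀ = 2πi` (or a power of this object). If `T` is contained in the torsor of
   the isomorphisms `z ⊕ ⨁ X_i` with `X_i Q_i X_i^t = z^(w_i) B_i` and `det X_i = δ_i z^(m_i)` then it is equal to this torsor,
   whose dimension is `1 + ∑_i dim special(B_i)`. As the torsor of motivic isomorphisms is such a `T`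
   this determines it as well: it is the smallest subtorsor and its dimension is the expected one.

Moreover there are functions `D(N) → ∞` and `δ(N) → 0` such that for all but `δ(N) N^k` tuples `t` in `[1, N]^k` all
this is true for all number fields of degree at most `D(N)`.

Only the case of the subtorsors is treated, so the theorem says that the Zariski closure of the period point is not
contained in any smaller subtorsor; its dimension is not determined.

Proof. A theorem of helper120 (`Pool.Agent.Y120.R.gx`) gives that, outside of the exceptional set, all relations of degree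
at most `d` over `ℚ` of the period matrix `c` are satisfied by `g c` for `g ∈ 1 × ∏_i Gal(P_i)`. (Descent) Let
`K` be a Galois extension of `ℚ` of degree `D'`, `I` the space of relations of `c` of degree `≤ e` over `K` and `γ` a
polynomial curve with `γ(0) = c` along which all relations of degree `≤ D' e` over `ℚ` are preserved. For `P ∈ I` the norm of
`P` vanishes on `γ`, so `σ(P)` does for some `σ`, and as a vector space over `ℚ` is not a finite union of proper subspaces
there is one `σ` for all `P ∈ I`. So `σ(P)(c) = 0`, `σ(I) = I`, and all `P ∈ I` vanish on `γ`. The products of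
exponentials of nilpotent matrices are on such curves. (Stability) Now for all these `K` the arguments of our theorem
MixedTorsors (MP_ae0f86_nt) on normality, centralisers and commutators apply, see `Pool/Agent/Y123/GN`. (Groups)
The groups `Sp`, `SL` and `SO` in dimension `≥ 3` are generated by unipotent elements and perfect; for `SO` we show by the
theorem of Cartan and Dieudonné that it is generated by products `s_a s_b` of reflections with `b(a,a) = b(b,b) = b(a,b) = 1`,
and these are unipotent. (Absolute case) By automorphisms of `ℂ` over `K` all `z ≠ 0` occur in `T`.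
-/

set_option autoImplicit false

open PowerSeries Filter
open scoped commutatorElement Matrix

namespace Pool.Agent.Results.MP_caab05_ag.BigMonodromyTorsors

/-- an integer polynomial as a power series with rational coefficients -/
noncomputable def toQ (P : Polynomial ℤ) : PowerSeries ℚ := ((P.map (Int.castRingHom ℚ) : Polynomial ℚ) : PowerSeries ℚ)

/-- the power series `P(u^e)` -/
noncomputable def atPow (e : ℕ) (P : Polynomial ℤ) : PowerSeries ℂ :=
  ((Polynomial.expand ℂ e (P.map (Int.castRingHom ℂ)) : Polynomial ℂ) : PowerSeries ℂ)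

/-- the matrices `G_s` over `ℤ[x]` with `T^s y^(s) = G_s y` for all solutions `y` of `T y' = A y` -/
noncomputable def iter {r : ℕ} (T : Polynomial ℤ) (A : Fin r → Fin r → Polynomial ℤ) : ℕ → Fin r → Fin r → Polynomial ℤ
  | 0 => fun i j => if i = j then 1 else 0
  | s + 1 => fun i j => T * Polynomial.derivative (iter T A s i j) + ∑ l, iter T A s i l * A l j -
      (s : Polynomial ℤ) * (Polynomial.derivative T * iter T A s i j)

/-- The system `T y' = A y` has a fundamental matrix of solutions of the form `u^(-M) ∑_n Φ_n(u) (log u)^n` with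
`u^e = x` and convergent power series `Φ_n`: the point `0` is regular or a regular singularity with rational
exponents. -/
def QuasiUnipotent {r : ℕ} (T : Polynomial ℤ) (A : Fin r → Fin r → Polynomial ℤ) : Prop :=
  ∃ (e M : ℕ) (K : ℝ) (Φ : Matrix (Fin r) (Fin r) (Polynomial (PowerSeries ℂ))), 1 ≤ e ∧ Φ.det ≠ 0 ∧
    (∀ i j n m, ‖coeff m ((Φ i j).coeff n)‖ ≤ K ^ (m + 1)) ∧
    ∀ i j n, atPow e T * (X * PowerSeries.derivative ℂ ((Φ i j).coeff n) +
        ((n : PowerSeries ℂ) + 1) * (Φ i j).coeff (n + 1) - (M : PowerSeries ℂ) * (Φ i j).coeff n) =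
      (e : PowerSeries ℂ) * X ^ e * ∑ l, atPow e (A i l) * (Φ l j).coeff n

/-- `h_1, ..., h_r` are G-functions with rational coefficients which solve the differential system `T y' = A y`, with
the conditions of Siegel and Galochkin, and `0` is a regular point or a regular singularity with rational exponents of
the system. -/
structure GFamily {r : ℕ} (T : Polynomial ℤ) (A : Fin r → Fin r → Polynomial ℤ) (h : Fin r → PowerSeries ℚ) : Prop where
  /-- the denominator is not zero -/
  T_ne : T ≠ 0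
  /-- the differential equations -/
  ode : ∀ i, toQ T * PowerSeries.derivative ℚ (h i) = ∑ j, toQ (A i j) * h j
  /-- the coefficients have geometric growth -/
  size : ∃ C : ℝ, ∀ i m, |((coeff m (h i) : ℚ) : ℝ)| ≤ C ^ (m + 1)
  /-- the common denominators of the coefficients have geometric growth -/
  den : ∃ C : ℝ, ∀ m : ℕ, ∃ d : ℕ, 0 < d ∧ (d : ℝ) ≤ C ^ (m + 1) ∧ ∀ i, ∀ j ≤ m, ∃ a : ℤ, (d : ℚ) * coeff j (h i) = a
  /-- Galochkin's condition: the common denominators of the matrices `G_s / s!` have geometric growth -/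
  galochkin : ∃ C : ℝ, ∀ m : ℕ, ∃ d : ℕ, 0 < d ∧ (d : ℝ) ≤ C ^ (m + 1) ∧ ∀ s ≤ m, ∀ i j,
    ∃ H : Polynomial ℤ, (d : Polynomial ℤ) * iter T A s i j = (s.factorial : Polynomial ℤ) * H
  /-- the local exponents at `0` are rational and the singularity is regular -/
  regular : QuasiUnipotent T A

theorem iter_eq {r : ℕ} (T : Polynomial ℤ) (A : Fin r → Fin r → Polynomial ℤ) (s : ℕ) :
    iter T A s = Pool.Agent.Y120.GH.itm T A s := by
  induction s with
  | zero => rfl
  | succ s ih =>
    funext i j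
    rw [iter, Pool.Agent.Y120.GH.itm, ih]

theorem qu_eq {r : ℕ} {T : Polynomial ℤ} {A : Fin r → Fin r → Polynomial ℤ} (h : QuasiUnipotent T A) :
    Pool.Agent.Y120.GH.QU0 T A := by
  obtain ⟨e, M, K, Φ, he, hdet, hc, heq⟩ := h
  have he0 : e ≠ 0 := by omega
  refine ⟨e, he0, M, K, Φ, hc, fun i j n => ?_, hdet⟩
  have h1 := heq i j n
  simp only [atPow] at h1
  rw [Pool.Agent.Y120.GH.expand_poly he0]
  simp only [Pool.Agent.Y120.GH.expand_poly he0]
  exact h1

theorem fam {r : ℕ} {T : Polynomial ℤ} {A : Fin r → Fin r → Polynomial ℤ} {h : Fin r → PowerSeries ℚ}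
    (hG : GFamily T A h) (δ : ℕ) : Pool.Agent.Y120.R.Fam δ h :=
  ⟨hG.size, Pool.Agent.Y120.GH.family_main hG.T_ne hG.ode hG.size hG.den (by
    obtain ⟨C, hC⟩ := hG.galochkin
    refine ⟨C, fun m => ?_⟩
    obtain ⟨d, h1, h2, h3⟩ := hC m
    refine ⟨d, h1, h2, fun s hs i' j' => ?_⟩
    rw [← iter_eq]
    exact h3 s hs i' j') (qu_eq hG.regular) δ⟩

section family
variable {r n : ℕ}

/-- The period matrix at `x = 1 / s`: the entries are the polynomials `P a b` in `log s` and in the `h_l(1 / s)`. -/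
noncomputable def perMat (h : Fin r → PowerSeries ℚ) (P : Fin n → Fin n → MvPolynomial (Option (Fin r)) ℂ) (s : ℝ) :
    Matrix (Fin n) (Fin n) ℂ :=
  Matrix.of fun a b => MvPolynomial.aeval (fun o : Option (Fin r) => o.elim ((Real.log s : ℝ) : ℂ)
    fun l => ((∑' m : ℕ, ((coeff m (h l) : ℚ) : ℝ) * (1 / s) ^ m : ℝ) : ℂ)) (P a b)

/-- the value at `x = 1 / s` and at the matrix `Z` of a polynomial in the entries of a matrix over `ℂ[x]` -/
noncomputable def relAt (R : MvPolynomial (Fin n × Fin n) (Polynomial ℂ)) (s : ℝ) (Z : Matrix (Fin n) (Fin n) ℂ) : ℂ :=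
  MvPolynomial.eval₂ (Polynomial.evalRingHom (1 / (s : ℂ))) (fun v => Z v.1 v.2) R

/-- `g P(x)` satisfies all polynomial relations over `ℂ[x]` which `P(x)` satisfies. -/
def Preserves (h : Fin r → PowerSeries ℚ) (P : Fin n → Fin n → MvPolynomial (Option (Fin r)) ℂ)
    (g : Matrix (Fin n) (Fin n) ℂ) : Prop :=
  ∀ R : MvPolynomial (Fin n × Fin n) (Polynomial ℂ), (∀ᶠ s : ℝ in Filter.atTop, relAt R s (perMat h P s) = 0) →
    ∀ᶠ s : ℝ in Filter.atTop, relAt R s (g * perMat h P s) = 0

/-- The group of the matrices `g` such that `g` and `g⁻¹` preserve the relations. If `P` is a fundamental matrix of a linear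
differential system over `ℂ(x)` this is its differential Galois group. -/
noncomputable def Gal (h : Fin r → PowerSeries ℚ) (P : Fin n → Fin n → MvPolynomial (Option (Fin r)) ℂ) :
    Subgroup (Matrix.GeneralLinearGroup (Fin n) ℂ) where
  carrier := {g | Preserves h P (g : Matrix (Fin n) (Fin n) ℂ) ∧
    Preserves h P ((g⁻¹ : Matrix.GeneralLinearGroup (Fin n) ℂ) : Matrix (Fin n) (Fin n) ℂ)}
  mul_mem' := fun hg hg' => (Pool.Agent.Y123.GN.Gs h P).mul_mem' hg hg'
  one_mem' := (Pool.Agent.Y123.GN.Gs h P).one_mem'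
  inv_mem' := fun hg => (Pool.Agent.Y123.GN.Gs h P).inv_mem' hg

theorem gal_eq (h : Fin r → PowerSeries ℚ) (P : Fin n → Fin n → MvPolynomial (Option (Fin r)) ℂ) :
    Gal h P = Pool.Agent.Y123.GN.Gs h P := rfl

/-- the nilpotent matrices `N` with `exp (t N) ∈ H` for all `t` -/
def nilpotents (H : Subgroup (Matrix.GeneralLinearGroup (Fin n) ℂ)) : Set (Matrix (Fin n) (Fin n) ℂ) :=
  {N | IsNilpotent N ∧ ∀ t : ℂ, ∃ u ∈ H, (u : Matrix (Fin n) (Fin n) ℂ) = IsNilpotent.exp (t • N)}

/-- the subgroup generated by all unipotent one-parameter groups in `H` -/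
def unipotents (H : Subgroup (Matrix.GeneralLinearGroup (Fin n) ℂ)) : Subgroup (Matrix.GeneralLinearGroup (Fin n) ℂ) :=
  Subgroup.closure {u | ∃ N ∈ nilpotents H, ∃ t : ℂ, (u : Matrix (Fin n) (Fin n) ℂ) = IsNilpotent.exp (t • N)}

/-- the commutator group of the group generated by the unipotent one-parameter groups -/
def known (H : Subgroup (Matrix.GeneralLinearGroup (Fin n) ℂ)) : Subgroup (Matrix.GeneralLinearGroup (Fin n) ℂ) :=
  ⁅unipotents H, unipotents H⁆

/-- the matrices of determinant `1` which respect the form `B`; the special linear group for `B = 0` -/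
def special (B : Matrix (Fin n) (Fin n) ℂ) : Subgroup (Matrix.GeneralLinearGroup (Fin n) ℂ) where
  carrier := {g | (g : Matrix (Fin n) (Fin n) ℂ).det = 1 ∧
    (g : Matrix (Fin n) (Fin n) ℂ) * B * (g : Matrix (Fin n) (Fin n) ℂ)ᵀ = B}
  mul_mem' := fun hg hg' => (Pool.Agent.Y123.GN.GB B).mul_mem' hg hg'
  one_mem' := (Pool.Agent.Y123.GN.GB B).one_mem'
  inv_mem' := fun hg => (Pool.Agent.Y123.GN.GB B).inv_mem' hg

/-- nondegenerate alternating forms -/
def Symplectic (B : Matrix (Fin n) (Fin n) ℂ) : Prop := IsUnit B ∧ Bᵀ = -B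

/-- The form is zero, or nondegenerate and alternating, or nondegenerate and symmetric of rank different from `2`. -/
def Classical (B : Matrix (Fin n) (Fin n) ℂ) : Prop := B = 0 ∨ Symplectic B ∨ (IsUnit B ∧ Bᵀ = B ∧ n ≠ 2)

end family

/-- `T` is (the set of complex points of) a `K`-subtorsor of `GL_B = Iso (M_dR, M_B)`: it is closed under `x y⁻¹ z`, and
it is defined in `GL_B` by polynomials with coefficients in `K`. -/
def IsSubtorsor (K : Subfield ℂ) {B : Type} [Fintype B] [DecidableEq B] (T : Set (Matrix B B ℂ)) : Prop :=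
  (∀ x ∈ T, ∀ y ∈ T, ∀ z ∈ T, x * y⁻¹ * z ∈ T) ∧ ∃ I : Set (MvPolynomial (B × B) K), ∀ x : Matrix B B ℂ, x ∈ T ↔
    IsUnit x ∧ ∀ p ∈ I, MvPolynomial.eval (fun b => x b.1 b.2) (MvPolynomial.map (algebraMap K ℂ) p) = 0

section
variable {k r : ℕ} {n : Fin k → ℕ} {ρ : Fin k → ℕ}

/-- the block matrix `x ⊕ X_1 ⊕ … ⊕ X_k` -/
noncomputable def total (x : Matrix (Fin r) (Fin r) ℂ) (X : ∀ i, Matrix (Fin (n i)) (Fin (n i)) ℂ) :
    Matrix (Fin r ⊕ Σ i, Fin (n i)) (Fin r ⊕ Σ i, Fin (n i)) ℂ :=
  Matrix.fromBlocks x 0 0 (Matrix.blockDiagonal' X)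

/-- the isomorphisms `X_i` respect the polarisations `Q_i` (de Rham) and `B_i` (Betti) up to the factors `μ_i` -/
def Respects (B Q : ∀ i, Matrix (Fin (n i)) (Fin (n i)) ℂ) (μ : Fin k → ℂ)
    (X : ∀ i, Matrix (Fin (n i)) (Fin (n i)) ℂ) : Prop :=
  (∀ i, μ i ≠ 0) ∧ ∀ i, X i * Q i * (X i)ᵀ = μ i • B i

/-- The isomorphisms `z ⊕ … ⊕ z ⊕ X_1 ⊕ … ⊕ X_k` of an `r`-fold sum of the object `ℚ(-1)` and of the `M_i` which respect the
polarisations, with values in `ℚ(-w_i)`, and the identifications of `det M_i` with `ℚ(-m_i)` up to a twist. -/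
def torsorOf (r : ℕ) (B Q : ∀ i, Matrix (Fin (n i)) (Fin (n i)) ℂ) (w m : Fin k → ℤ) (δ : Fin k → ℂ) :
    Set (Matrix (Fin r ⊕ Σ i, Fin (n i)) (Fin r ⊕ Σ i, Fin (n i)) ℂ) :=
  {y | ∃ z : ℂ, z ≠ 0 ∧ ∃ X : ∀ i, Matrix (Fin (n i)) (Fin (n i)) ℂ, y = total (z • 1) X ∧
    ∀ i, X i * Q i * (X i)ᵀ = z ^ (w i) • B i ∧ (Symplectic (B i) ∨ (X i).det = δ i * z ^ (m i))}

/-- The conclusion for one tuple; `Z i` is the period matrix of the fibre of the `i`-th family. -/
def Good (D : ℕ) (C₀ : Matrix (Fin r) (Fin r) ℂ) (h : ∀ i, Fin (ρ i) → PowerSeries ℚ)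
    (P : ∀ i, Fin (n i) → Fin (n i) → MvPolynomial (Option (Fin (ρ i))) ℂ)
    (Z : ∀ i, Matrix (Fin (n i)) (Fin (n i)) ℂ) : Prop :=
  ∀ K : Subfield ℂ, FiniteDimensional ℚ K → Module.finrank ℚ K ≤ D →
  ∀ T : Set (Matrix (Fin r ⊕ Σ i, Fin (n i)) (Fin r ⊕ Σ i, Fin (n i)) ℂ), IsSubtorsor K T → total C₀ Z ∈ T →
  -- 1: stability
  (∀ g : ∀ i, Matrix.GeneralLinearGroup (Fin (n i)) ℂ, (∀ i, g i ∈ known (Gal (h i) (P i))) →
    ∀ x ∈ T, total 1 (fun i => (g i : Matrix (Fin (n i)) (Fin (n i)) ℂ)) * x ∈ T) ∧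
  -- 2: big monodromy, relative case
  (∀ B : ∀ i, Matrix (Fin (n i)) (Fin (n i)) ℂ, (∀ i, Classical (B i)) → (∀ i, special (B i) ≤ Gal (h i) (P i)) →
    ∀ (Q : ∀ i, Matrix (Fin (n i)) (Fin (n i)) ℂ) (μ : Fin k → ℂ) (x₀ : Matrix (Fin r) (Fin r) ℂ)
      (X Y : ∀ i, Matrix (Fin (n i)) (Fin (n i)) ℂ), Respects B Q μ X → Respects B Q μ Y →
      (∀ i, Symplectic (B i) ∨ (X i).det = (Y i).det) → total x₀ X ∈ T → total x₀ Y ∈ T) ∧
  -- 3: big monodromy, absolute case
  (0 < r → C₀ = (2 * Real.pi * Complex.I : ℂ) • 1 →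
    ∀ B : ∀ i, Matrix (Fin (n i)) (Fin (n i)) ℂ, (∀ i, Classical (B i)) → (∀ i, special (B i) ≤ Gal (h i) (P i)) →
    ∀ (Q : ∀ i, Matrix (Fin (n i)) (Fin (n i)) ℂ) (w m : Fin k → ℤ) (δ : Fin k → ℂ),
      T ⊆ torsorOf r B Q w m δ → T = torsorOf r B Q w m δ)

theorem good_of {D : ℕ} {C₀ : Matrix (Fin r) (Fin r) ℂ} {h : ∀ i, Fin (ρ i) → PowerSeries ℚ}
    {P : ∀ i, Fin (n i) → Fin (n i) → MvPolynomial (Option (Fin (ρ i))) ℂ} {t : Fin k → ℕ}
    (hg : Pool.Agent.Y123.GN.GoodU D C₀ h P t) : Good D C₀ h P fun i => perMat (h i) (P i) (t i : ℝ) := by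
  intro K hKf hKD T hT hcT
  have hT' := Pool.Agent.Y123.ST.subT_iff.1 hT
  have h1 := hg K hKf hKD T hT' hcT
  have hKalg : ∀ x ∈ K, IsAlgebraic ℚ x := by
    intro x hx
    have : NumberField K := { to_charZero := inferInstance, to_finiteDimensional := hKf }
    have h6 : IsAlgebraic ℚ (⟨x, hx⟩ : K) := Algebra.IsAlgebraic.isAlgebraic _
    exact h6.algebraMap (A := ℂ)
  have h2 : ∀ B : ∀ i, Matrix (Fin (n i)) (Fin (n i)) ℂ, (∀ i, Classical (B i)) →
      (∀ i, special (B i) ≤ Gal (h i) (P i)) →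
      ∀ g : ∀ i, (Matrix (Fin (n i)) (Fin (n i)) ℂ)ˣ, (∀ i, g i ∈ Pool.Agent.Y123.GN.GB (B i)) →
      ∀ x ∈ T, Pool.Agent.Y123.GN.EG 1 (fun i => (g i : Matrix (Fin (n i)) (Fin (n i)) ℂ)) * x ∈ T := by
    intro B hB hBG g hgB x hx
    exact h1 g (fun i => Pool.Agent.Y123.GN.mono_comm (hBG i) (Pool.Agent.Y123.GN.cl_perf (hB i)) (hgB i)) x hx
  refine ⟨h1, ?_, ?_⟩
  · intro B hB hBG Q μ x₀ X Y hX hY hd hx
    exact Pool.Agent.Y123.GN.fibre_full hT' (h2 B hB hBG) hX.1 hx hX.2 hY.2 hd
  · intro hr hC₀ B hB hBG Q w m δ hTF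
    have hne : Nonempty (Fin r) := ⟨⟨0, hr⟩⟩
    rw [hC₀] at hcT
    exact Pool.Agent.Y123.GN.absolute hKalg hT' hcT (h2 B hB hBG) hTF

end

/-- **The theorem.** -/
theorem result (k e r : ℕ) (ρ n : Fin k → ℕ) (T : Fin k → Polynomial ℤ)
    (A : ∀ i, Fin (ρ i) → Fin (ρ i) → Polynomial ℤ) (h : ∀ i, Fin (ρ i) → PowerSeries ℚ)
    (hG : ∀ i, GFamily (T i) (A i) (h i)) :
    -- number fields of degree at most `D`
    (∀ D : ℕ, ∃ c C : ℝ, 0 < c ∧ 0 ≤ C ∧ ∀ P : ∀ i, Fin (n i) → Fin (n i) → MvPolynomial (Option (Fin (ρ i))) ℂ,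
      (∀ i a b, (P i a b).totalDegree ≤ e) → ∀ C₀ : Matrix (Fin r) (Fin r) ℂ, ∀ (x : Fin k → ℕ) (N : ℕ), 1 ≤ N →
      (({t : Fin k → ℕ | (∀ i, x i < t i ∧ t i ≤ x i + N) ∧
        ¬ Good D C₀ h P fun i => perMat (h i) (P i) (t i : ℝ)}.ncard : ℕ) : ℝ) ≤
        C * (N : ℝ) ^ (k - 1) * ∑ i, (1 + N / ((x i : ℝ) + N) ^ c)) ∧
    -- number fields of degree at most `D N`, which tends to infinity
    (∃ (D : ℕ → ℕ) (δ : ℕ → ℝ), Tendsto D atTop atTop ∧ Tendsto δ atTop (nhds 0) ∧
      ∀ P : ∀ i, Fin (n i) → Fin (n i) → MvPolynomial (Option (Fin (ρ i))) ℂ,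
      (∀ i a b, (P i a b).totalDegree ≤ e) → ∀ C₀ : Matrix (Fin r) (Fin r) ℂ, ∀ N : ℕ, 1 ≤ N →
      (({t : Fin k → ℕ | (∀ i, 1 ≤ t i ∧ t i ≤ N) ∧
        ¬ Good (D N) C₀ h P fun i => perMat (h i) (P i) (t i : ℝ)}.ncard : ℕ) : ℝ) ≤ δ N * (N : ℝ) ^ k) := by
  classical
  have hmain : ∀ D : ℕ, ∃ c C : ℝ, 0 < c ∧ 0 ≤ C ∧ ∀ P : ∀ i, Fin (n i) → Fin (n i) → MvPolynomial (Option (Fin (ρ i))) ℂ,
      (∀ i a b, (P i a b).totalDegree ≤ e) → ∀ C₀ : Matrix (Fin r) (Fin r) ℂ, ∀ (x : Fin k → ℕ) (N : ℕ), 1 ≤ N →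
      (({t : Fin k → ℕ | (∀ i, x i < t i ∧ t i ≤ x i + N) ∧
        ¬ Good D C₀ h P fun i => perMat (h i) (P i) (t i : ℝ)}.ncard : ℕ) : ℝ) ≤
        C * (N : ℝ) ^ (k - 1) * ∑ i, (1 + N / ((x i : ℝ) + N) ^ c) := by
    intro D
    obtain ⟨c, C, hc, hC, hmain⟩ := Pool.Agent.Y123.GN.all_main k D e r ρ n h fun i δ => fam (hG i) δ
    refine ⟨c, C, hc, hC, ?_⟩
    intro P hP C₀ x N hN
    set E := {t : Fin k → ℕ | (∀ i, x i < t i ∧ t i ≤ x i + N) ∧
        ¬ Good D C₀ h P fun i => perMat (h i) (P i) (t i : ℝ)} with hE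
    have hfin : E.Finite := by
      refine (Set.finite_Iic (fun i : Fin k => x i + N)).subset ?_
      intro t ht i
      exact (ht.1 i).2
    rw [Set.ncard_eq_toFinset_card E hfin]
    refine hmain P hP C₀ x N hN _ fun t ht => ?_
    have ht' : t ∈ E := hfin.mem_toFinset.1 ht
    exact ⟨ht'.1, fun hgood => ht'.2 (good_of hgood)⟩
  refine ⟨hmain, ?_⟩
  choose c C hc hC hcount using hmain
  obtain ⟨D, hD, hδ⟩ := Pool.Agent.Y123.GN.diag_seq
    (fun D N => C D * k * (1 / (N : ℝ) + 1 / (N : ℝ) ^ (c D))) (by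
      intro D
      have h1 : Tendsto (fun N : ℕ => (1 : ℝ) / (N : ℝ)) atTop (nhds 0) := tendsto_one_div_atTop_nhds_zero_nat
      have h2 : Tendsto (fun N : ℕ => (1 : ℝ) / (N : ℝ) ^ (c D)) atTop (nhds 0) := by
        have h3 := (tendsto_rpow_atTop (hc D)).comp tendsto_natCast_atTop_atTop
        have h4 := h3.inv_tendsto_atTop
        refine h4.congr fun N => ?_
        rw [one_div]
        rfl
      have h5 := (h1.add h2).const_mul (C D * k)
      rw [add_zero, mul_zero] at h5
      exact h5)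
  refine ⟨D, _, hD, hδ, ?_⟩
  intro P hP C₀ N hN
  have h1 := hcount (D N) P hP C₀ (fun _ => 0) N hN
  have h2 : {t : Fin k → ℕ | (∀ i, 0 < t i ∧ t i ≤ 0 + N) ∧
      ¬ Good (D N) C₀ h P fun i => perMat (h i) (P i) (t i : ℝ)} = {t : Fin k → ℕ | (∀ i, 1 ≤ t i ∧ t i ≤ N) ∧
      ¬ Good (D N) C₀ h P fun i => perMat (h i) (P i) (t i : ℝ)} := by
    ext t
    simp only [Set.mem_setOf_eq, zero_add, Nat.lt_iff_add_one_le]
  rw [h2] at h1
  refine h1.trans (le_of_eq ?_)
  have hN0 : (N : ℝ) ≠ 0 := by
    have : N ≠ 0 := by omega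
    exact_mod_cast this
  rw [Finset.sum_const, Finset.card_univ, Fintype.card_fin, nsmul_eq_mul, Nat.cast_zero, zero_add]
  rcases Nat.eq_zero_or_pos k with hk | hk
  · subst hk
    simp
  · obtain ⟨q, rfl⟩ : ∃ q, k = q + 1 := ⟨k - 1, by omega⟩
    have h3 : (N : ℝ) ^ (q + 1) = (N : ℝ) ^ q * N := pow_succ _ _
    rw [Nat.add_sub_cancel, h3]
    have h4 : (1 : ℝ) + N / (N : ℝ) ^ (c (D N)) = N * (1 / (N : ℝ) + 1 / (N : ℝ) ^ (c (D N))) := by
      rw [mul_add, mul_one_div_cancel hN0, mul_one_div]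
    rw [h4]
    ring

end Pool.Agent.Results.MP_caab05_ag.BigMonodromyTorsors
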