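import Pool.Agent.Y113.W.All

/-!
# Grothendieck's period conjecture up to any given degree for almost all products of Legendre elliptic curves:
# relations of arbitrary height

For integers `t_i ≥ 2` let `X_t = E_{1/t_1} × ⋯ × E_{1/t_k}`, with `E_s : y² = x(x-1)(x-s)`. The field of the periods of `X_t`
is generated, up to algebraic numbers, by `π` and the `3k` numbers `K(1/t_i)`, `E(1/t_i)`, `K(1 - 1/t_i)`, and for general
`t` its motivic Galois group has dimension `3k + 1`.

For almost all `t` these `3k` numbers satisfy no relation of degree at most `δ` with coefficients in a given `ℚ`-space `V` of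
complex numbers of bounded dimension; there is no condition on the size of the coefficients. The space `V` can be spanned by the
products of the elements of a number field and the powers of `π` up to a given power.
-/

set_option autoImplicit false

namespace Pool.Agent.Results.MP_caab05_ag.LegendreTuplesAllHeights

/-- Complete elliptic integral of the first kind, `K(s) = ∫_0^{π/2} dθ / √(1 - s sin² θ)`. -/
noncomputable def K (s : ℝ) : ℝ := ∫ θ in (0 : ℝ)..(Real.pi / 2), 1 / √(1 - s * Real.sin θ ^ 2)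

/-- Complete elliptic integral of the second kind, `E(s) = ∫_0^{π/2} √(1 - s sin² θ) dθ`. -/
noncomputable def E (s : ℝ) : ℝ := ∫ θ in (0 : ℝ)..(Real.pi / 2), √(1 - s * Real.sin θ ^ 2)

/-- The `3k` numbers `K(1/t_i)`, `E(1/t_i)`, `K(1 - 1/t_i)`, for `i = 1, …, k`. -/
noncomputable def periods {k : ℕ} (t : Fin k → ℕ) (x : Fin k × Fin 3) : ℂ :=
  ![(K (1 / (t x.1 : ℝ)) : ℂ), (E (1 / (t x.1 : ℝ)) : ℂ), (K (1 - 1 / (t x.1 : ℝ)) : ℂ)] x.2

/-- Some nonzero polynomial of total degree at most `δ` in `3k` variables with coefficients in `V` vanishes at the `3k`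
numbers `K(1/t_i)`, `E(1/t_i)`, `K(1 - 1/t_i)`. -/
def Related {k : ℕ} (δ : ℕ) (V : Submodule ℚ ℂ) (t : Fin k → ℕ) : Prop :=
  ∃ P : MvPolynomial (Fin k × Fin 3) ℂ, P ≠ 0 ∧ P.totalDegree ≤ δ ∧ (∀ s, P.coeff s ∈ V) ∧
    MvPolynomial.aeval (periods t) P = 0

/-- For all `k`, `δ`, `D` there are `c > 0` and `C` such that for every `ℚ`-subspace `V` of `ℂ` of dimension at most `D` and
every `T ≥ 1`, at most `C T^(k-c)` of the `k`-tuples of integers in `[2, T]` are related. -/
theorem result (k δ D : ℕ) : ∃ c : ℝ, 0 < c ∧ ∃ C : ℝ, ∀ V : Submodule ℚ ℂ, Module.Finite ℚ V →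
    Module.finrank ℚ V ≤ D → ∀ T : ℕ, 1 ≤ T →
      {t : Fin k → ℕ | (∀ i, 2 ≤ t i ∧ t i ≤ T) ∧ Related δ V t}.Finite ∧
      ({t : Fin k → ℕ | (∀ i, 2 ≤ t i ∧ t i ≤ T) ∧ Related δ V t}.ncard : ℝ) ≤ C * (T : ℝ) ^ ((k : ℝ) - c) := by
  classical
  obtain ⟨c, hc, C, -, h⟩ := Y113.count_tuples Y113.per Y113.t_win δ k D
  refine ⟨c, hc, C, fun V hV hVD T hT => ?_⟩
  have h1 := h V hV hVD T hT
  have h2 : {t : Fin k → ℕ | (∀ i, 2 ≤ t i ∧ t i ≤ T) ∧ Related δ V t} =
      (((Fintype.piFinset fun _ : Fin k => Finset.Icc 2 T).filter fun t => Y113.Rel δ V (Y113.tup Y113.per t)) :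
        Set (Fin k → ℕ)) := by
    ext t
    simp only [Set.mem_ofPred_eq, Finset.coe_filter, Fintype.mem_piFinset, Finset.mem_Icc]
    rfl
  rw [h2, Set.ncard_coe_finset]
  refine ⟨Finset.finite_toSet _, ?_⟩
  exact h1

end Pool.Agent.Results.MP_caab05_ag.LegendreTuplesAllHeights
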