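import Pool.Agent.Y113.W.All
import Pool.Agent.Y113.W.WinK

/-!
# Grothendieck's period conjecture up to any given degree for all products of Legendre curves in short windows,
# outside a set of fibres of bounded cardinality

Let `E_s : y² = x(x-1)(x-s)`. In each window `[n, n + n^c]` one can delete a bounded number of integers so that for ALL
`k`-tuples of distinct remaining integers `t_1, …, t_k` the `3k` periods `K(1/t_i)`, `E(1/t_i)`, `K(1 - 1/t_i)` of
`E_{1/t_1} × ⋯ × E_{1/t_k}` satisfy no relation of degree at most `δ` with coefficients in a given `ℚ`-space `V` of complex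
numbers of bounded dimension. There is no condition on the size of the coefficients.
-/

set_option autoImplicit false

namespace Pool.Agent.Results.MP_caab05_ag.LegendreWindows

/-- Complete elliptic integral of the first kind, `K(s) = ∫_0^{π/2} dθ / √(1 - s sin² θ)`. -/
noncomputable def K (s : ℝ) : ℝ := ∫ θ in (0 : ℝ)..(Real.pi / 2), 1 / √(1 - s * Real.sin θ ^ 2)

/-- Complete elliptic integral of the second kind, `E(s) = ∫_0^{π/2} √(1 - s sin² θ) dθ`. -/
noncomputable def E (s : ℝ) : ℝ := ∫ θ in (0 : ℝ)..(Real.pi / 2), √(1 - s * Real.sin θ ^ 2)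

/-- The `3k` numbers `K(1/t_i)`, `E(1/t_i)`, `K(1 - 1/t_i)`, for `i = 1, …, k`. -/
noncomputable def periods {k : ℕ} (t : Fin k → ℕ) (x : Fin k × Fin 3) : ℂ :=
  ![(K (1 / (t x.1 : ℝ)) : ℂ), (E (1 / (t x.1 : ℝ)) : ℂ), (K (1 - 1 / (t x.1 : ℝ)) : ℂ)] x.2

/-- Some nonzero polynomial of total degree at most `δ` in `3k` variables with coefficients in `V` vanishes at the `3k`
numbers `K(1/t_i)`, `E(1/t_i)`, `K(1 - 1/t_i)`. -/
def Related {k : ℕ} (δ : ℕ) (V : Submodule ℚ ℂ) (t : Fin k → ℕ) : Prop :=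
  ∃ P : MvPolynomial (Fin k × Fin 3) ℂ, P ≠ 0 ∧ P.totalDegree ≤ δ ∧ (∀ s, P.coeff s ∈ V) ∧
    MvPolynomial.aeval (periods t) P = 0

/-- For all `k`, `δ`, `D` there are `M` and `c > 0` such that for every `ℚ`-subspace `V` of `ℂ` of dimension at most `D` and
every `n ≥ 1` there is a set `S` of at most `M` integers such that no `k`-tuple of distinct integers in `[n, n + n^c]`
outside `S` is related. -/
theorem result (k δ D : ℕ) : ∃ M : ℕ, ∃ c : ℝ, 0 < c ∧ ∀ V : Submodule ℚ ℂ, Module.Finite ℚ V →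
    Module.finrank ℚ V ≤ D → ∀ n : ℕ, 1 ≤ n → ∃ S : Finset ℕ, S.card ≤ M ∧
      ∀ t : Fin k → ℕ, Function.Injective t → (∀ i, n ≤ t i ∧ (t i : ℝ) ≤ n + (n : ℝ) ^ c ∧ t i ∉ S) →
        ¬ Related δ V t := by
  obtain ⟨M, E₀, h⟩ := Y113.win_k Y113.t_G Y113.t_fin Y37.GF.t_LI Y37.GF.t_ev Y141.GF.t_elim k δ D
  set F := E₀ + 1 with hF
  have hF1 : (1 : ℝ) ≤ F := by rw [hF]; push_cast; linarith [show (0 : ℝ) ≤ E₀ by positivity]
  set c : ℝ := 1 / (2 * F) with hc
  have hc0 : 0 < c := by positivity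
  refine ⟨M + 4, c, hc0, fun V hV hVD n hn => ?_⟩
  have hn1 : (1 : ℝ) ≤ n := by exact_mod_cast hn
  have hn0 : (0 : ℝ) < n := by linarith
  have hnc1 : 1 ≤ (n : ℝ) ^ c := Real.one_le_rpow hn1 hc0.le
  set H := ⌊(n : ℝ) ^ c⌋₊ with hH
  have hHle : (H : ℝ) ≤ (n : ℝ) ^ c := Nat.floor_le (by positivity)
  have hHlt : (n : ℝ) ^ c < H + 1 := Nat.lt_floor_add_one _
  have hcF : ((n : ℝ) ^ c) ^ F = (n : ℝ) ^ (1 / 2 : ℝ) := by
    rw [← Real.rpow_natCast, ← Real.rpow_mul hn0.le, hc]
    congr 1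
    field_simp
  have hle : ∀ m : ℕ, (m : ℝ) ≤ n + (n : ℝ) ^ c → m ≤ n + H := by
    intro m hm
    have h1 : (m : ℝ) < (n + H : ℕ) + 1 := by push_cast; linarith
    have h2 : m < n + H + 1 := by exact_mod_cast h1
    omega
  by_cases hbig : 9 ^ F ≤ n
  · -- large windows
    have h1 : (H + 2) ^ E₀ ≤ n + H := by
      have h2 : ((H : ℝ) + 2) ^ F ≤ n := by
        have h3 : (H : ℝ) + 2 ≤ 3 * (n : ℝ) ^ c := by linarith
        calc ((H : ℝ) + 2) ^ F ≤ (3 * (n : ℝ) ^ c) ^ F := pow_le_pow_left₀ (by positivity) h3 _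
          _ = 3 ^ F * (n : ℝ) ^ (1 / 2 : ℝ) := by rw [mul_pow, hcF]
          _ ≤ (n : ℝ) ^ (1 / 2 : ℝ) * (n : ℝ) ^ (1 / 2 : ℝ) := by
              refine mul_le_mul_of_nonneg_right ?_ (by positivity)
              have h4 : ((9 : ℝ) ^ F) ≤ n := by exact_mod_cast hbig
              have h5 : (3 : ℝ) ^ F = ((9 : ℝ) ^ F) ^ (1 / 2 : ℝ) := by
                rw [show (9 : ℝ) = 3 ^ (2 : ℕ) by norm_num, ← pow_mul, mul_comm, pow_mul, ← Real.sqrt_eq_rpow,
                  Real.sqrt_sq (by positivity)]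
              rw [h5]
              exact Real.rpow_le_rpow (by positivity) h4 (by norm_num)
          _ = n := by
              rw [← Real.rpow_add hn0]
              norm_num
      have h3 : (H + 2) ^ F ≤ n := by exact_mod_cast h2
      calc (H + 2) ^ E₀ ≤ (H + 2) ^ F := Nat.pow_le_pow_right (by omega) (by omega)
        _ ≤ n := h3
        _ ≤ n + H := Nat.le_add_right _ _
    obtain ⟨S, hS, hS'⟩ := h V hV hVD H (n + H) h1
    refine ⟨S.image fun g => n + H - g, (Finset.card_image_le.trans hS).trans (by omega), fun t ht hti hR => ?_⟩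
    have hti' : ∀ i, n + H - (n + H - t i) = t i := fun i => by
      have := hle (t i) (hti i).2.1
      omega
    refine hS' (fun i => n + H - t i) ?_ ?_ ?_
    · intro i j hij
      apply ht
      rw [← hti' i, ← hti' j]
      simp only at hij
      rw [hij]
    · intro i
      refine ⟨by have := (hti i).1; omega, fun hi => (hti i).2.2 ?_⟩
      exact Finset.mem_image.2 ⟨_, hi, hti' i⟩
    · have e : (fun i => n + H - (n + H - t i)) = t := funext hti'
      show Y113.Rel δ V (Y113.tup Y113.per fun i => n + H - (n + H - t i))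
      rw [e]
      exact hR
  · -- small windows
    push Not at hbig
    have hsmall : (n : ℝ) ^ c < 3 := by
      have h1 : (n : ℝ) < 9 ^ F := by exact_mod_cast hbig
      calc (n : ℝ) ^ c < ((9 : ℝ) ^ F) ^ c := Real.rpow_lt_rpow hn0.le h1 hc0
        _ = 3 := by
            rw [← Real.rpow_natCast, ← Real.rpow_mul (by norm_num), hc]
            have : (F : ℝ) * (1 / (2 * F)) = 1 / 2 := by field_simp
            rw [this, ← Real.sqrt_eq_rpow, show (9 : ℝ) = 3 ^ (2 : ℕ) by norm_num, Real.sqrt_sq (by norm_num)]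
    have hH3 : H ≤ 2 := by
      have : (H : ℝ) < 3 := by linarith
      have : H < 3 := by exact_mod_cast this
      omega
    refine ⟨Finset.Icc n (n + H), by rw [Nat.card_Icc]; omega, fun t _ hti hR => ?_⟩
    rcases Nat.eq_zero_or_pos k with rfl | hk
    · obtain ⟨P, hP0, -, -, hPv⟩ := hR
      obtain ⟨a, rfl⟩ : ∃ a, P = MvPolynomial.C a := ⟨_, MvPolynomial.eq_C_of_isEmpty P⟩
      rw [MvPolynomial.aeval_C] at hPv
      apply hP0
      have : a = 0 := hPv
      rw [this, map_zero]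
    · exact (hti ⟨0, hk⟩).2.2 (Finset.mem_Icc.2 ⟨(hti ⟨0, hk⟩).1, hle _ (hti ⟨0, hk⟩).2.1⟩)

end Pool.Agent.Results.MP_caab05_ag.LegendreWindows
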