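import Pool.Agent.Y119.PLM.Main

/-!
Relations between the periods of the fibres of families with symplectic monodromy, over bases of any dimension: outside
few hypersurfaces of small degree of the base, all polynomial relations of bounded degree and size between the periods of
the fibre, with arbitrary constants, come from the cup product.

The definitions (`Pool.Agent.Y119.PLM`, `Pool.Agent.Y890.MV`, `Pool.Agent.Y124`, `Pool.Agent.Y120`):
* `MT n` : tuples of complex matrices `A j` of size `n j`; `Ix n` : the indices of their entries; `pe P A` : the value
  of the polynomial `P` at the entries of `A`;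
* `Cnt U Y V F` : `F` on `V` is an analytic continuation of `Y` on `U` along a chain of connected sets;
* `IsMon U Y g` : some analytic continuation of `Y` on `U` is `Y g` on a nonempty open subset of `U`;
* `Big U Y j` : the tuples `(1, .., h, .., 1)` (`h` in position `j`) in the monodromy with unipotent `h` have no common
  invariant subspace besides `0` and the whole space, and for one such tuple `rank (h - 1) = 1`;
* `DenseMon U Y J` : polynomials which vanish on the monodromy vanish on the product of the symplectic groups;
* `ExcT J J' U Y K io k ξ T` : the exceptional points;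
* `InnerM U k` : points of norm at most `k` at distance at least `1 / k` from the complement of `U`;
* `HtLe K T x` : `x` is a quotient of two integers of `K` all of whose conjugates are at most `T`;
* `Cov D m S` : `S` is covered by at most `m` hypersurfaces of degree at most `D`.
-/

namespace Pool.Agent.Results.MP_caab05_ag.PicardLefschetzFamilies

open Filter Pool.Agent Pool.Agent.Y119.PLM

/-- Let `U` be a connected nonempty open set in `ℂ ^ X` and `Y j`, `j` in a finite set, matrices of analytic functions
on `U` (period matrices) with `(Y j)ᵀ * J' j * Y j = J j`, `J j` and `J' j` constant, `J j` alternating and invertible.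

(A) If the unipotent elements of the monodromy concentrated in the factor `j` act irreducibly, and one of these elements
has rank `rank (h - 1) = 1` (Picard-Lefschetz), for every `j`, then the monodromy is Zariski dense in the product of the
symplectic groups of the forms `J j`.

(B) If the monodromy is dense in this product there is `ω → ∞` such that for all large `T`, all number fields `K` of
degree at most `ω T`, all embeddings and all complex numbers `ξ i`, `i < ω T`: the points `s` of `K ^ X` of height at
most `T` in the compact set `InnerM U (ω T)` at which some polynomial of partial degrees at most `ω T`, with coefficients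
`∑ ξ i * c i`, `c i` integers of `K` with all conjugates at most `T ^ ω T`, vanishes at `(Y j (s))` but does not vanish
at all tuples `A` with `(A j)ᵀ * J' j * A j = J j`, lie on at most `T ^ (1 / ω T)` hypersurfaces of degree at most
`T ^ (1 / ω T)`; and there are at most `T ^ (1 / ω T) * N ^ (|X| - 1)` of them, `N` being the number of elements of `K`
of height at most `T`. -/
theorem result {X κ : Type} [Fintype X] [DecidableEq X] [Nonempty X] [Fintype κ] [DecidableEq κ] (n : κ → ℕ)
    (J J' : (j : κ) → Matrix (Fin (n j)) (Fin (n j)) ℂ) (hJ : ∀ j, (J j).transpose = -J j)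
    (hdet : ∀ j, (J j).det ≠ 0) (U : Set (X → ℂ)) (hU : IsPreconnected U) (hUo : IsOpen U) (hne : U.Nonempty)
    (Y : (X → ℂ) → MT n) (hY : ∀ j a b, AnalyticOnNhd ℂ (fun x => Y x j a b) U)
    (hsym : ∀ x ∈ U, ∀ j, (Y x j).transpose * J' j * Y x j = J j) :
    ((∀ j, Big U Y j) → DenseMon U Y J) ∧
    (DenseMon U Y J → ∃ (ω : ℝ → ℕ) (T₀ : ℝ), Tendsto ω atTop atTop ∧ Monotone ω ∧ ∀ T, T₀ ≤ T → 0 < ω T ∧
      ∀ (K : Type) [Field K] [NumberField K], Module.finrank ℚ K ≤ ω T → ∀ (io : K →+* ℂ) (ξ : Fin (ω T) → ℂ),
        Y124.Cov ⌊T ^ ((ω T : ℝ)⁻¹)⌋₊ ⌊T ^ ((ω T : ℝ)⁻¹)⌋₊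
          ((fun (s : X → K) i => io (s i)) '' ExcT J J' U Y K io (ω T) ξ T) ∧
        (ExcT J J' U Y K io (ω T) ξ T).Finite ∧
        ((ExcT J J' U Y K io (ω T) ξ T).ncard : ℝ) ≤
          T ^ ((ω T : ℝ)⁻¹) * ({x : K | Y120.HtLe K T x}.ncard : ℝ) ^ (Fintype.card X - 1)) :=
  ⟨dense_of_big hU hUo hne hY hJ hdet hsym, excT_omega hJ hdet hU hUo hne hY hsym⟩

end Pool.Agent.Results.MP_caab05_ag.PicardLefschetzFamilies
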